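import Pool.Agent.Helper83.CDM.Asm

/-!
# There is no (Z4 x Z4 x Z2 x Z2, 4, 0) contracted difference matrix

This refutes the statement of the question: for `r = 4`, the group `Z4 x Z4 x Z2 x Z2` has order `2^6`,
exponent `4 = 2^(6/3)` and rank `4`, but no contracted difference matrix with four rows.
-/

namespace Pool.Agent.Results.MP_eeaa94_co.NoCDM

/-- `A`, with rows indexed by `I` and columns indexed by `J`, is a `(G, |I|, lam)` difference matrix:
it has `lam * |G|` columns and for any two distinct rows the differences take each element of `G` exactly `lam` times. -/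
structure IsDifferenceMatrix {G I J : Type} [AddCommGroup G] (A : I → J → G) (lam : ℕ) : Prop where
  card_cols : Nat.card J = lam * Nat.card G
  diff : ∀ i i' : I, i ≠ i' → ∀ g : G, Nat.card {j : J // A i j - A i' j = g} = lam

/-- The 2-expansion of a `k x l` matrix over `G`. -/
def twoExpansion {G : Type} [AddCommGroup G] {k l : ℕ} (M : Fin k → Fin l → G) :
    (Fin k → Fin 2) → (Fin l → Fin 2) → G :=
  fun r c => ∑ i, ∑ j, ((r i : ℕ) * (c j : ℕ)) • M i j

/-- `M` is a `(G, k, 0)` contracted difference matrix, where `|G| = 2^n`. -/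
structure IsContractedDM {G : Type} [AddCommGroup G] {k n : ℕ} (M : Fin k → Fin n → G) : Prop where
  card_group : Nat.card G = 2 ^ n
  expansion : IsDifferenceMatrix (twoExpansion M) 1

/-- `G` is a counterexample to the statement of Q1 with parameters `r` and `n`: `r` is at least 2, `G` has order `2^n`,
exponent at most `2^(n/(r-1))` and rank (minimal number of generators) at least `r`, but there is no `(G, r, 0)`
contracted difference matrix. -/
def IsCounterexample (r n : ℕ) (G : Type) [AddCommGroup G] [Finite G] : Prop :=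
  2 ≤ r ∧ Nat.card G = 2 ^ n ∧ (AddMonoid.exponent G : ℝ) ≤ (2 : ℝ) ^ ((n : ℝ) / ((r : ℝ) - 1)) ∧
    r ≤ AddGroup.rank G ∧ ¬ ∃ M : Fin r → Fin n → G, IsContractedDM M

open CDM

/-- extension of a finite matrix by zero -/
def ext (M : Fin 4 → Fin 6 → GG) (i j : ℕ) : GG := if h : i < 4 ∧ j < 6 then M ⟨i, h.1⟩ ⟨j, h.2⟩ else 0

theorem VV_ext (M : Fin 4 → Fin 6 → GG) (s t : ℕ → ℤ) :
    VV (ext M) s t = ∑ i : Fin 4, ∑ j : Fin 6, (s i * t j) • M i j := by
  unfold VV
  rw [Finset.sum_range]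
  refine Finset.sum_congr rfl (fun i _ => ?_)
  rw [Finset.sum_range, Finset.smul_sum]
  refine Finset.sum_congr rfl (fun j _ => ?_)
  have h : ext M i j = M i j := by
    unfold ext; rw [dif_pos ⟨i.isLt, j.isLt⟩]
  rw [h, mul_smul]

theorem twoExp_eq (M : Fin 4 → Fin 6 → GG) (r : Fin 4 → Fin 2) (c : Fin 6 → Fin 2) :
    twoExpansion M r c = ∑ i : Fin 4, ∑ j : Fin 6, (((r i : ℕ) : ℤ) * ((c j : ℕ) : ℤ)) • M i j := by
  unfold twoExpansion
  refine Finset.sum_congr rfl (fun i _ => Finset.sum_congr rfl (fun j _ => ?_))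
  rw [← Nat.cast_mul, natCast_zsmul]

theorem NV_of_CDM (M : Fin 4 → Fin 6 → GG) (h : IsContractedDM M) : NV (ext M) := by
  intro s t hs ht hs0 ht0 h0
  have hinj : ∀ r r' : Fin 4 → Fin 2, r ≠ r' → ∀ c c' : Fin 6 → Fin 2,
      twoExpansion M r c - twoExpansion M r' c = twoExpansion M r c' - twoExpansion M r' c' → c = c' := by
    intro r r' hr c c' hc
    have h1 := h.expansion.diff r r' hr (twoExpansion M r c - twoExpansion M r' c)
    have h2 := (Nat.card_eq_one_iff_unique.mp h1).1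
    have := h2.elim ⟨c, rfl⟩ ⟨c', hc.symm⟩
    exact congrArg Subtype.val this
  let r : Fin 4 → Fin 2 := fun i => if s i = 1 then 1 else 0
  let r' : Fin 4 → Fin 2 := fun i => if s i = -1 then 1 else 0
  let c : Fin 6 → Fin 2 := fun i => if t i = 1 then 1 else 0
  let c' : Fin 6 → Fin 2 := fun i => if t i = -1 then 1 else 0
  have er : ∀ i : Fin 4, (((r i : ℕ) : ℤ) - ((r' i : ℕ) : ℤ)) = s i := by
    intro i
    rcases hs i i.isLt with h | h | h <;> simp [r, r', h]
  have ec : ∀ j : Fin 6, (((c j : ℕ) : ℤ) - ((c' j : ℕ) : ℤ)) = t j := by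
    intro j
    rcases ht j j.isLt with h | h | h <;> simp [c, c', h]
  have hrr : r ≠ r' := by
    intro e
    obtain ⟨i, hi, h⟩ := hs0
    apply h
    have := er ⟨i, hi⟩
    rw [e, sub_self] at this
    exact this.symm
  have hcc : c ≠ c' := by
    intro e
    obtain ⟨j, hj, h⟩ := ht0
    apply h
    have := ec ⟨j, hj⟩
    rw [e, sub_self] at this
    exact this.symm
  apply hcc
  apply hinj r r' hrr
  rw [← sub_eq_zero]
  rw [VV_ext] at h0
  rw [← h0]
  simp only [twoExp_eq]
  rw [← Finset.sum_sub_distrib, ← Finset.sum_sub_distrib, ← Finset.sum_sub_distrib]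
  refine Finset.sum_congr rfl (fun i _ => ?_)
  rw [← Finset.sum_sub_distrib, ← Finset.sum_sub_distrib, ← Finset.sum_sub_distrib]
  refine Finset.sum_congr rfl (fun j _ => ?_)
  rw [← sub_smul, ← sub_smul, ← sub_smul, ← er i, ← ec j]
  congr 1
  ring

theorem no_CDM (M : Fin 4 → Fin 6 → (ZMod 4 × ZMod 4 × ZMod 2 × ZMod 2)) : ¬ IsContractedDM M :=
  fun h => no_NV _ (NV_of_CDM M h)

theorem card_GG : Nat.card (ZMod 4 × ZMod 4 × ZMod 2 × ZMod 2) = 2 ^ 6 := by
  simp [Nat.card_eq_fintype_card, ZMod.card]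

theorem exp_GG : AddMonoid.exponent (ZMod 4 × ZMod 4 × ZMod 2 × ZMod 2) ≤ 4 := by
  apply Nat.le_of_dvd (by norm_num)
  apply AddMonoid.exponent_dvd_of_forall_nsmul_eq_zero
  decide +kernel

/-- reduction modulo twice the group -/
def red : (ZMod 4 × ZMod 4 × ZMod 2 × ZMod 2) →+ (Fin 4 → ZMod 2) where
  toFun g := ![ZMod.castHom (show 2 ∣ 4 by norm_num) (ZMod 2) g.1, ZMod.castHom (show 2 ∣ 4 by norm_num) (ZMod 2) g.2.1, g.2.2.1, g.2.2.2]
  map_zero' := by ext i; fin_cases i <;> simp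
  map_add' := by
    intro g h
    ext i
    fin_cases i <;> simp

theorem red_surj : Function.Surjective red := by
  intro v
  have key : ∀ x : ZMod 2, ZMod.castHom (show 2 ∣ 4 by norm_num) (ZMod 2) ((x.val : ℕ) : ZMod 4) = x := by decide
  refine ⟨((v 0).val, (v 1).val, v 2, v 3), ?_⟩
  ext i
  fin_cases i
  · exact key (v 0)
  · exact key (v 1)
  · rfl
  · rfl

theorem rank_GG : 4 ≤ AddGroup.rank (ZMod 4 × ZMod 4 × ZMod 2 × ZMod 2) := by
  obtain ⟨S, hS, hcl⟩ := AddGroup.rank_spec (ZMod 4 × ZMod 4 × ZMod 2 × ZMod 2)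
  rw [← hS]
  classical
  have hspan : Submodule.span (ZMod 2) ((S.image red : Finset (Fin 4 → ZMod 2)) : Set (Fin 4 → ZMod 2)) = ⊤ := by
    rw [eq_top_iff]
    intro v _
    obtain ⟨g, rfl⟩ := red_surj v
    have hg : g ∈ AddSubgroup.closure (S : Set (ZMod 4 × ZMod 4 × ZMod 2 × ZMod 2)) := by rw [hcl]; trivial
    have hle : AddSubgroup.closure (S : Set (ZMod 4 × ZMod 4 × ZMod 2 × ZMod 2)) ≤
        (Submodule.span (ZMod 2) ((S.image red : Finset (Fin 4 → ZMod 2)) : Set (Fin 4 → ZMod 2))).toAddSubgroup.comap red := by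
      rw [AddSubgroup.closure_le]
      intro x hx
      apply Submodule.subset_span
      simp only [Finset.coe_image]
      exact ⟨x, hx, rfl⟩
    exact hle hg
  have h1 := finrank_span_finset_le_card (R := ZMod 2) (S.image red)
  rw [Set.finrank, hspan, finrank_top, Module.finrank_fin_fun] at h1
  exact h1.trans Finset.card_image_le

/-- Q1 has a negative answer: for `r = 4` and the group `Z4 x Z4 x Z2 x Z2` of order `2^6`, exponent `4 = 2^(6/3)` and
rank 4 there is no contracted difference matrix with four rows. -/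
theorem result : IsCounterexample 4 6 (ZMod 4 × ZMod 4 × ZMod 2 × ZMod 2) := by
  refine ⟨by norm_num, card_GG, ?_, rank_GG, fun ⟨M, h⟩ => no_CDM M h⟩
  have h4 : ((AddMonoid.exponent (ZMod 4 × ZMod 4 × ZMod 2 × ZMod 2) : ℕ) : ℝ) ≤ 4 := by exact_mod_cast exp_GG
  refine h4.trans ?_
  have e : ((6 : ℕ) : ℝ) / (((4 : ℕ) : ℝ) - 1) = ((2 : ℕ) : ℝ) := by norm_num
  rw [e, Real.rpow_natCast]
  norm_num

/-- The statement of Q1 is false. -/
theorem q1_false : ¬ ∀ (r n : ℕ) (G : Type) [AddCommGroup G] [Finite G], 2 ≤ r → Nat.card G = 2 ^ n →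
    (AddMonoid.exponent G : ℝ) ≤ (2 : ℝ) ^ ((n : ℝ) / ((r : ℝ) - 1)) → r ≤ AddGroup.rank G →
    ∃ M : Fin r → Fin n → G, IsContractedDM M := by
  intro h
  obtain ⟨h1, h2, h3, h4, h5⟩ := result
  exact h5 (h _ _ _ h1 h2 h3 h4)

end Pool.Agent.Results.MP_eeaa94_co.NoCDM
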